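import Pool.Agent.Helper116_MU.NamesAt

/-!
# Measures along a sequence of scales (helper116)
-/

set_option autoImplicit false
set_option linter.unusedSectionVars false

open Finset Filter

namespace Pool.Agent.Helper116_MU

open Pool.Agent.Helper116_EM

/-- a measure along a sequence of scales -/
def MeasSeq {ι : Type*} (β : ι → ℝ) (h : ℕ → ℝ) : Prop :=
  ∀ D E : ℕ, ∃ (κ : ℕ) (c : ℝ), 0 < c ∧ ∀ᶠ N in atTop, ∀ P : MvPolynomial ι ℤ, P ≠ 0 → P.totalDegree ≤ D →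
    (∀ s, |((MvPolynomial.coeff s P : ℤ) : ℝ)| ≤ E * h N ^ E) → c ≤ h N ^ κ * |MvPolynomial.aeval β P|

/-- smaller than all negative powers -/
def Small (x h : ℕ → ℝ) : Prop := ∀ (κ : ℕ) (c : ℝ), 0 < c → ∀ᶠ N in atTop, h N ^ κ * |x N| < c

lemma MeasSeq.of_measI {ι : Type*} {β : ι → ℝ} (hβ : MeasI β) {h : ℕ → ℝ} (h1 : ∀ N, 1 ≤ h N) : MeasSeq β h := by
  intro D E
  obtain ⟨κ, c, hc, hm⟩ := hβ D
  have hE : (0 : ℝ) < (E : ℝ) + 1 := by positivity
  refine ⟨E * κ, c / ((E : ℝ) + 1) ^ κ, by positivity, Eventually.of_forall fun N P hP hPD hPc => ?_⟩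
  have hh := h1 N
  have h2 : 1 ≤ ((E : ℝ) + 1) * h N ^ E :=
    one_le_mul_of_one_le_of_one_le (by linarith [show (0 : ℝ) ≤ E by positivity]) (one_le_pow₀ hh)
  have h3 := hm P hP hPD _ h2 (fun s => (hPc s).trans (by
    have : 0 < h N ^ E := by positivity
    nlinarith))
  rw [div_le_iff₀ (by positivity)]
  calc c ≤ _ := h3
    _ = _ := by rw [mul_pow, ← pow_mul]; ring

lemma MeasSeq.ne_zero {ι : Type*} {β : ι → ℝ} {h : ℕ → ℝ} (hβ : MeasSeq β h) (h1 : ∀ N, 1 ≤ h N)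
    {P : MvPolynomial ι ℤ} (hP : P ≠ 0) : MvPolynomial.aeval β P ≠ 0 := by
  intro h0
  obtain ⟨E, hE⟩ : ∃ E : ℕ, ml P ≤ E := exists_nat_ge _
  obtain ⟨κ, c, hc, hm⟩ := hβ P.totalDegree E
  obtain ⟨N, hN⟩ := hm.exists
  have hh := h1 N
  have h2 := hN P hP le_rfl (fun s => by
    refine ((coeff_le_ml P s).trans hE).trans ?_
    exact le_mul_of_one_le_right (by positivity) (one_le_pow₀ hh))
  rw [h0, abs_zero, mul_zero] at h2
  linarith

lemma MeasSeq.indep {ι : Type*} {β : ι → ℝ} {h : ℕ → ℝ} (hβ : MeasSeq β h) (h1 : ∀ N, 1 ≤ h N) :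
    AlgebraicIndependent ℚ β := by
  have h2 : AlgebraicIndependent ℤ β := by
    rw [algebraicIndependent_iff]
    intro P hP
    by_contra h0
    exact hβ.ne_zero h1 h0 hP
  have : Algebra.IsAlgebraic ℤ ℚ := ⟨fun q => (IsFractionRing.isAlgebraic_iff ℤ ℚ ℚ).2 (isAlgebraic_algebraMap q)⟩
  exact h2.extendScalars ℚ

/-- a measure at the scales `g N` between `h N` and a power of `h N` -/
lemma MeasSeq.at {ι : Type*} {β : ι → ℝ} {h : ℕ → ℝ} (hβ : MeasSeq β h) (h1 : ∀ N, 1 ≤ h N) (D E : ℕ) (g : ℕ → ℝ)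
    (hg : ∀ N, h N ≤ g N) (hg' : ∀ N, g N ≤ E * h N ^ E) :
    ∃ (κ : ℕ) (c : ℝ), 0 < c ∧ ∀ᶠ N in atTop, At β D κ c (g N) := by
  obtain ⟨κ, c, hc, hm⟩ := hβ D E
  refine ⟨κ, c, hc, hm.mono fun N hN P hP hPD hPc => ?_⟩
  have hh := h1 N
  refine (hN P hP hPD (fun s => (hPc s).trans (hg' N))).trans ?_
  exact mul_le_mul_of_nonneg_right (pow_le_pow_left₀ (by linarith) (hg N) κ) (abs_nonneg _)

/-- one step of the elimination -/
theorem MeasSeq.step {ι : Type} [Fintype ι] {η : ℝ} {θ : ι → ℝ} {h : ℕ → ℝ}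
    (hβ : MeasSeq (fun o : Option ι => o.elim η θ) h) (h1 : ∀ N, 1 ≤ h N) (s : ι → ℕ) (hs : ∀ j, s j ≤ 1) (y : ℝ)
    (D₀ : ℕ) (P : ℕ → MvPolynomial (Fin 2) ℤ) (hP0 : ∀ N, P N ≠ 0) (hPD : ∀ N, (P N).totalDegree ≤ D₀)
    (hPh : ∀ N, ∀ u, |((MvPolynomial.coeff u (P N) : ℤ) : ℝ)| ≤ h N)
    (hsm : Small (fun N => MvPolynomial.aeval ![η, y] (P N)) h) :
    MeasSeq (fun o : Option ι => o.elim η (fun j => θ j + s j * y)) h := by
  intro D' E
  have hAI := hβ.indep h1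
  obtain ⟨D, hD⟩ : ∃ D : ℕ, D = D₀ + D' + 1 := ⟨_, rfl⟩
  obtain ⟨E', hE'⟩ : ∃ E' : ℕ, E' = E + 1 := ⟨_, rfl⟩
  obtain ⟨K, hK⟩ : ∃ K : ℝ, K = KK D (Fintype.card ι) := ⟨_, rfl⟩
  have hD1 : (1 : ℝ) ≤ (D : ℝ) + 1 := by linarith [show (0 : ℝ) ≤ D by positivity]
  have hK1 : 1 ≤ K := by
    rw [hK, KK]
    exact one_le_mul_of_one_le_of_one_le (one_le_pow₀ hD1) (one_le_pow₀ (by norm_num))
  obtain ⟨K', hK'⟩ : ∃ K' : ℕ, K ≤ K' := exists_nat_ge _
  have hK'1 : (1 : ℝ) ≤ K' := hK1.trans hK'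
  have hE'1 : (1 : ℝ) ≤ (E' : ℝ) := by rw [hE']; push_cast; linarith [show (0 : ℝ) ≤ E by positivity]
  -- the scale
  let H : ℕ → ℝ := fun N => E' * h N ^ E'
  have hhH : ∀ N, h N ≤ H N := by
    intro N
    have hh := h1 N
    calc h N = h N ^ 1 := (pow_one _).symm
      _ ≤ h N ^ E' := pow_le_pow_right₀ hh (by omega)
      _ ≤ E' * h N ^ E' := le_mul_of_one_le_left (by positivity) hE'1
  have hH1 : ∀ N, 1 ≤ H N := fun N => (h1 N).trans (hhH N)
  obtain ⟨E1, hE1⟩ : ∃ E1 : ℕ, E1 = K' * E' := ⟨_, rfl⟩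
  have hK'n : 1 ≤ K' := by exact_mod_cast hK'1
  have hE'n : 1 ≤ E' := by omega
  have hg1 : ∀ N, K * H N ≤ E1 * h N ^ E1 := by
    intro N
    have hh := h1 N
    have e1 : h N ^ E' ≤ h N ^ E1 := pow_le_pow_right₀ hh (by rw [hE1]; exact Nat.le_mul_of_pos_left _ hK'n)
    calc K * H N = K * E' * h N ^ E' := by ring
      _ ≤ K' * E' * h N ^ E1 := by gcongr
      _ = E1 * h N ^ E1 := by rw [hE1]; push_cast; ring
  have hg1' : ∀ N, h N ≤ K * H N := fun N => (hhH N).trans (le_mul_of_one_le_left (by linarith [hH1 N]) hK1)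
  obtain ⟨k1, c1, hc1, hA1⟩ := hβ.at h1 D E1 (fun N => K * H N) hg1' hg1
  obtain ⟨E2, hE2⟩ : ∃ E2 : ℕ, E2 = (2 * D).factorial * E1 ^ (2 * D) + E1 * (2 * D) := ⟨_, rfl⟩
  have hg2 : ∀ N, (2 * D).factorial * (K * H N) ^ (2 * D) ≤ E2 * h N ^ E2 := by
    intro N
    have hh := h1 N
    have hHN := hH1 N
    calc ((2 * D).factorial : ℝ) * (K * H N) ^ (2 * D) ≤ (2 * D).factorial * (E1 * h N ^ E1) ^ (2 * D) :=
          mul_le_mul_of_nonneg_left (pow_le_pow_left₀ (by positivity) (hg1 N) _) (by positivity)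
      _ = ((2 * D).factorial * E1 ^ (2 * D)) * h N ^ (E1 * (2 * D)) := by rw [mul_pow, ← pow_mul]; ring
      _ ≤ E2 * h N ^ E2 := by
          have e1 : h N ^ (E1 * (2 * D)) ≤ h N ^ E2 := pow_le_pow_right₀ hh (by omega)
          have e2 : ((2 * D).factorial : ℝ) * E1 ^ (2 * D) ≤ E2 := by
            rw [hE2]; push_cast
            have : (0 : ℝ) ≤ E1 * (2 * D) := by positivity
            linarith
          gcongr
  have hg2' : ∀ N, h N ≤ (2 * D).factorial * (K * H N) ^ (2 * D) := by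
    intro N
    have hKH : 1 ≤ K * H N := one_le_mul_of_one_le_of_one_le hK1 (hH1 N)
    have hfac : (1 : ℝ) ≤ (2 * D).factorial := by exact_mod_cast Nat.factorial_pos _
    calc h N ≤ K * H N := hg1' N
      _ = (K * H N) ^ 1 := (pow_one _).symm
      _ ≤ (K * H N) ^ (2 * D) := pow_le_pow_right₀ hKH (by omega)
      _ ≤ _ := le_mul_of_one_le_left (by positivity) hfac
  obtain ⟨k2, c2, hc2, hA2⟩ := hβ.at h1 ((2 * D) * D) E2 (fun N => (2 * D).factorial * (K * H N) ^ (2 * D)) hg2' hg2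
  obtain ⟨κ, c, hc, hm⟩ := names_at η θ s hs hAI y D k1 k2 c1 c2 hc1 hc2
  have hEκ : (0 : ℝ) < (E' : ℝ) ^ κ := by positivity
  have hsm' := hsm (E' * κ) (c / (E' : ℝ) ^ κ) (by positivity)
  refine ⟨E' * κ, c / (E' : ℝ) ^ κ, by positivity, ?_⟩
  filter_upwards [hA1, hA2, hsm'] with N hN1 hN2 hN3 Q hQ hQD hQc
  have hh := h1 N
  have hQH : ∀ u, |((MvPolynomial.coeff u Q : ℤ) : ℝ)| ≤ H N := fun u => (hQc u).trans (by
    show (E : ℝ) * h N ^ E ≤ E' * h N ^ E'
    have e1 : h N ^ E ≤ h N ^ E' := pow_le_pow_right₀ hh (by omega)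
    have e2 : (E : ℝ) ≤ E' := by rw [hE']; push_cast; linarith
    gcongr)
  rw [hK] at hN1 hN2
  have h2 := hm (H N) (hH1 N) hN1 hN2 (P N) Q (hP0 N) hQ ((hPD N).trans (by omega)) (hQD.trans (by omega))
    (fun u => (hPh N u).trans (hhH N)) hQH
  have e3 : H N ^ κ = (E' : ℝ) ^ κ * h N ^ (E' * κ) := by
    show ((E' : ℝ) * h N ^ E') ^ κ = _
    rw [mul_pow, ← pow_mul]
  rw [e3] at h2
  rcases le_total |MvPolynomial.aeval ![η, y] (P N)|
    |MvPolynomial.aeval (fun o : Option ι => o.elim η (fun j => θ j + s j * y)) Q| with h4 | h4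
  · rw [max_eq_right h4] at h2
    rw [div_le_iff₀ hEκ]
    linarith
  · rw [max_eq_left h4] at h2
    rw [lt_div_iff₀ hEκ] at hN3
    exfalso
    linarith

/-- **Several numbers against all others.** -/
theorem multi {ι : Type} [Fintype ι] (η : ℝ) (θ : ι → ℝ) (hβ : MeasI (fun o : Option ι => o.elim η θ)) (n : ℕ)
    (g : ι → Fin n) (u : Fin n → ℝ) (D : ℕ) :
    ∃ (κ : ℕ) (c : ℝ), 0 < c ∧ ∀ (P : Fin n → MvPolynomial (Fin 2) ℤ) (Q : MvPolynomial (Option ι) ℤ),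
      (∀ i, P i ≠ 0) → Q ≠ 0 → (∀ i, (P i).totalDegree ≤ D) → Q.totalDegree ≤ D → ∀ H : ℝ, 1 ≤ H →
      (∀ i s, |((MvPolynomial.coeff s (P i) : ℤ) : ℝ)| ≤ H) → (∀ s, |((MvPolynomial.coeff s Q : ℤ) : ℝ)| ≤ H) →
      ∀ ε : ℝ, (∀ i, |MvPolynomial.aeval ![η, u i] (P i)| ≤ ε) →
        |MvPolynomial.aeval (fun o : Option ι => o.elim η (fun j => u (g j) + θ j)) Q| ≤ ε → c ≤ H ^ κ * ε := by
  by_contra hcon
  push Not at hcon
  have hcon' : ∀ N : ℕ, ∃ (P : Fin n → MvPolynomial (Fin 2) ℤ) (Q : MvPolynomial (Option ι) ℤ),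
      (∀ i, P i ≠ 0) ∧ Q ≠ 0 ∧ (∀ i, (P i).totalDegree ≤ D) ∧ Q.totalDegree ≤ D ∧ ∃ H : ℝ, 1 ≤ H ∧
      (∀ i s, |((MvPolynomial.coeff s (P i) : ℤ) : ℝ)| ≤ H) ∧ (∀ s, |((MvPolynomial.coeff s Q : ℤ) : ℝ)| ≤ H) ∧
      ∃ ε : ℝ, (∀ i, |MvPolynomial.aeval ![η, u i] (P i)| ≤ ε) ∧
        |MvPolynomial.aeval (fun o : Option ι => o.elim η (fun j => u (g j) + θ j)) Q| ≤ ε ∧
        H ^ N * ε < 1 / ((N : ℝ) + 1) := fun N => hcon N (1 / ((N : ℝ) + 1)) (by positivity)
  choose P Q hP hQ hPD hQD h h1 hPh hQh ε hPε hQε hlt using hcon'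
  have hε0 : ∀ N, 0 ≤ ε N := fun N => (abs_nonneg _).trans (hQε N)
  -- everything bounded by `ε` is small
  have hsmall : ∀ x : ℕ → ℝ, (∀ N, |x N| ≤ ε N) → Small x h := by
    intro x hx κ c hc
    obtain ⟨N₀, hN₀⟩ := exists_nat_gt (1 / c)
    filter_upwards [eventually_ge_atTop (max κ N₀)] with N hN
    have hN1 : κ ≤ N := (le_max_left _ _).trans hN
    have hN2 : N₀ ≤ N := (le_max_right _ _).trans hN
    have hh := h1 N
    have e1 : h N ^ κ * |x N| ≤ h N ^ N * ε N :=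
      mul_le_mul (pow_le_pow_right₀ hh hN1) (hx N) (abs_nonneg _) (by positivity)
    refine (e1.trans_lt (hlt N)).trans_le ?_
    have e2 : (1 / c) < (N : ℝ) + 1 := by
      have : (N₀ : ℝ) ≤ N := by exact_mod_cast hN2
      linarith
    rw [div_lt_iff₀ hc] at e2
    rw [div_le_iff₀ (by positivity)]
    linarith
  -- the iteration
  let w : ℕ → ι → ℝ := fun k j => θ j + if (g j : ℕ) < k then u (g j) else 0
  have key : ∀ k, k ≤ n → MeasSeq (fun o : Option ι => o.elim η (w k)) h := by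
    intro k
    induction k with
    | zero =>
      intro _
      have e : (fun o : Option ι => o.elim η (w 0)) = fun o : Option ι => o.elim η θ := by
        funext o
        cases o with
        | none => rfl
        | some j => simp [w]
      rw [e]
      exact MeasSeq.of_measI hβ h1
    | succ k ih =>
      intro hk
      have hk' : k < n := hk
      have h2 := (ih hk'.le).step h1 (fun j => if (g j : ℕ) = k then 1 else 0) (fun j => by
        show (if (g j : ℕ) = k then 1 else 0) ≤ 1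
        split_ifs <;> omega) (u ⟨k, hk'⟩) D
        (fun N => P N ⟨k, hk'⟩) (fun N => hP N _) (fun N => hPD N _) (fun N v => hPh N _ v)
        (hsmall _ fun N => hPε N _)
      have e : (fun o : Option ι => o.elim η (w (k + 1))) = fun o : Option ι => o.elim η
          (fun j => w k j + (((if (g j : ℕ) = k then 1 else 0 : ℕ) : ℝ)) * u ⟨k, hk'⟩) := by
        funext o
        cases o with
        | none => rfl
        | some j =>
          simp only [Option.elim, w]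
          by_cases hj : (g j : ℕ) = k
          · have e1 : u ⟨k, hk'⟩ = u (g j) := by congr 1; exact Fin.ext hj.symm
            rw [if_pos (by omega), if_neg (by omega), if_pos hj, e1]
            push_cast
            ring
          · by_cases hj2 : (g j : ℕ) < k
            · rw [if_pos (by omega), if_pos hj2, if_neg hj]
              push_cast
              ring
            · rw [if_neg (by omega), if_neg hj2, if_neg hj]
              push_cast
              ring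
      rw [e]
      exact h2
  have hfin := key n le_rfl
  have e : (fun o : Option ι => o.elim η (w n)) = fun o : Option ι => o.elim η (fun j => u (g j) + θ j) := by
    funext o
    cases o with
    | none => rfl
    | some j =>
      simp only [Option.elim, w]
      rw [if_pos (g j).2]
      ring
  rw [e] at hfin
  obtain ⟨κ, c, hc, hm⟩ := hfin D 1
  have hsm := hsmall (fun N => MvPolynomial.aeval (fun o : Option ι => o.elim η (fun j => u (g j) + θ j)) (Q N)) hQε κ c hc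
  obtain ⟨N, hN1, hN2⟩ := (hm.and hsm).exists
  have h3 := hN1 (Q N) (hQ N) (hQD N) (fun v => by
    have := hQh N v
    simpa using this)
  linarith

end Pool.Agent.Helper116_MU
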