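import Mathlib
import Pool.Agent.Helper116_MU.Seq
import Pool.Agent.Helper116_WL.Joint

/-!
# Several logarithms: the numbers `log a_i` and the weighted logarithms (helper116)
-/

set_option autoImplicit false
set_option linter.unusedSectionVars false

open Finset

namespace Pool.Agent.Helper116_MU

open Pool.Agent.R352.T (EA)
open Pool.Agent.R352.E (EE clF subset_clF indep_of_span)
open Pool.Agent.Helper116_EM (MeasI meas_gen EA_zero_eq)
open Pool.Agent.Helper116_WL (off_indep)

/-- differences with anchors, in groups -/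
lemma group_indep {n m : ℕ} (cL : Fin n → ℚ → ℝ) (h0 : ∀ i, cL i 0 = 0) (F : Finset ℚ)
    (hAI : AlgebraicIndependent ℚ (fun o : Option (Fin n × F) => o.elim (Real.exp 1) (fun p => cL p.1 p.2)))
    (x : Fin n → ℚ) (hx : ∀ i, x i ∈ insert 0 F) (g : Fin m → Fin n) (z : Fin m → ℚ)
    (hinj : Function.Injective (fun j => (g j, z j))) (hz : ∀ j, z j ∈ insert 0 F) (hzx : ∀ j, z j ≠ x (g j)) :
    AlgebraicIndependent ℚ (fun o : Option (Fin m) => o.elim (Real.exp 1)
      (fun j => cL (g j) (x (g j)) - cL (g j) (z j))) := by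
  classical
  set A : Finset (Fin n × ℚ) := Finset.univ ×ˢ insert 0 F with hA
  set T : Finset (Fin n × ℚ) := A.filter (fun p => p.2 ≠ x p.1) with hT
  let y : Option T → ℝ := fun o => o.elim (Real.exp 1) (fun p => cL p.1.1 (x p.1.1) - cL p.1.1 p.1.2)
  have hmemA : ∀ i, ∀ w ∈ insert 0 F, (i, w) ∈ A := fun i w hw => Finset.mem_product.2 ⟨Finset.mem_univ _, hw⟩
  have hcard : Fintype.card (Option T) ≤ Fintype.card (Option (Fin n × F)) := by
    have h1 : (A.filter (fun p => p.2 ≠ x p.1)).card + (A.filter (fun p => ¬ p.2 ≠ x p.1)).card = A.card :=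
      Finset.card_filter_add_card_filter_not _
    have h2 : n ≤ (A.filter (fun p => ¬ p.2 ≠ x p.1)).card := by
      have h3 : (Finset.univ.image fun i : Fin n => (i, x i)) ⊆ A.filter (fun p => ¬ p.2 ≠ x p.1) := by
        intro p hp
        obtain ⟨i, -, rfl⟩ := Finset.mem_image.1 hp
        exact Finset.mem_filter.2 ⟨hmemA i _ (hx i), by simp⟩
      have h4 := Finset.card_le_card h3
      rw [Finset.card_image_of_injective _ (fun i i' h => (Prod.mk.inj h).1), Finset.card_univ, Fintype.card_fin] at h4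
      exact h4
    have h3 : A.card ≤ n * (F.card + 1) := by
      rw [hA, Finset.card_product, Finset.card_univ, Fintype.card_fin]
      exact Nat.mul_le_mul_left _ (Finset.card_insert_le _ _)
    simp only [Fintype.card_option, Fintype.card_coe, Fintype.card_prod, Fintype.card_fin]
    rw [mul_add, mul_one] at h3
    rw [hT]
    omega
  have hy : AlgebraicIndependent ℚ y := by
    refine indep_of_span hAI (fun o => ?_) hcard
    cases o with
    | none => exact subset_clF _ ⟨none, rfl⟩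
    | some p =>
      obtain ⟨i, w⟩ := p
      have hdiff : ∀ v ∈ insert 0 F, cL i (x i) - cL i v ∈ clF (Set.range y) := by
        intro v hv
        by_cases h : v = x i
        · rw [h, sub_self]; exact (clF (Set.range y)).zero_mem
        · exact subset_clF _ ⟨some ⟨(i, v), Finset.mem_filter.2 ⟨hmemA i v hv, h⟩⟩, rfl⟩
      have h1 := hdiff 0 (Finset.mem_insert_self _ _)
      rw [h0, sub_zero] at h1
      have h2 := (clF (Set.range y)).sub_mem h1 (hdiff w (Finset.mem_insert_of_mem w.2))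
      rw [sub_sub_cancel] at h2
      exact h2
  let f : Option (Fin m) → Option T := Option.map fun j =>
    ⟨(g j, z j), Finset.mem_filter.2 ⟨hmemA _ _ (hz j), hzx j⟩⟩
  have hf : Function.Injective f := by
    refine Option.map_injective ?_
    intro j j' h
    simp only [Subtype.mk.injEq] at h
    exact hinj h
  have h2 := hy.comp f hf
  convert h2 using 1
  ext o
  cases o <;> rfl

/-- the offsets -/
noncomputable def cLg {n : ℕ} (a : Fin n → ℚ) (i : Fin n) (x : ℚ) : ℝ :=
  if x = 0 then 0 else EE 1 ((a i : ℝ) * (x : ℝ)) - EE 1 (x : ℝ)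

theorem logs_multi {n m : ℕ} (a : Fin n → ℚ) (ha : ∀ i, 0 < a i) (X : Set ℚ) (hX : ∀ x ∈ X, 0 < x)
    (hd : Set.InjOn (fun p : Option (Fin n) × ℚ => p.1.elim 1 a * p.2) {p | p.2 ∈ X})
    (y : Fin n → ℝ) (x : Fin n → ℚ) (hx : ∀ i, x i ∈ insert 0 X) (g : Fin m → Fin n) (z : Fin m → ℚ)
    (hinj : Function.Injective (fun j => (g j, z j))) (hz : ∀ j, z j ∈ insert 0 X) (hzx : ∀ j, z j ≠ x (g j))
    (D : ℕ) :
    ∃ (κ : ℕ) (c : ℝ), 0 < c ∧ ∀ (P : Fin n → MvPolynomial (Fin 2) ℤ) (Q : MvPolynomial (Option (Fin m)) ℤ),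
      (∀ i, P i ≠ 0) → Q ≠ 0 → (∀ i, (P i).totalDegree ≤ D) → Q.totalDegree ≤ D → ∀ H : ℝ, 1 ≤ H →
      (∀ i s, |((MvPolynomial.coeff s (P i) : ℤ) : ℝ)| ≤ H) → (∀ s, |((MvPolynomial.coeff s Q : ℤ) : ℝ)| ≤ H) →
      ∀ ε : ℝ, (∀ i, |MvPolynomial.aeval ![Real.exp 1, y i - cLg a i (x i)] (P i)| ≤ ε) →
        |MvPolynomial.aeval (fun o : Option (Fin m) => o.elim (Real.exp 1)
          (fun j => y (g j) - cLg a (g j) (z j))) Q| ≤ ε → c ≤ H ^ κ * ε := by
  classical
  set F : Finset ℚ := ((Finset.univ.image x) ∪ (Finset.univ.image z)).erase 0 with hF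
  have hxF : ∀ i, x i ∈ insert 0 F := by
    intro i
    by_cases h : x i = 0
    · rw [h]; exact Finset.mem_insert_self _ _
    · exact Finset.mem_insert_of_mem (Finset.mem_erase.2 ⟨h, Finset.mem_union_left _
        (Finset.mem_image_of_mem _ (Finset.mem_univ _))⟩)
  have hzF : ∀ j, z j ∈ insert 0 F := by
    intro j
    by_cases h : z j = 0
    · rw [h]; exact Finset.mem_insert_self _ _
    · exact Finset.mem_insert_of_mem (Finset.mem_erase.2 ⟨h, Finset.mem_union_right _
        (Finset.mem_image_of_mem _ (Finset.mem_univ _))⟩)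
  have hFX : ∀ w ∈ F, w ∈ X := by
    intro w hw
    obtain ⟨hw0, hw⟩ := Finset.mem_erase.1 hw
    rcases Finset.mem_union.1 hw with hw | hw
    · obtain ⟨i, -, rfl⟩ := Finset.mem_image.1 hw
      exact (hx i).resolve_left hw0
    · obtain ⟨j, -, rfl⟩ := Finset.mem_image.1 hw
      exact (hz j).resolve_left hw0
  have hFpos : ∀ w ∈ F, 0 < w := fun w hw => hX w (hFX w hw)
  have hAI0 : AlgebraicIndependent ℚ (fun o : Option (Fin n × F) => o.elim (Real.exp 1)
      (fun p => cLg a p.1 p.2)) := by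
    have h := off_indep a ha F hFpos (by
      rintro ⟨o, w⟩ ⟨o', w'⟩ h
      have h2 := @hd (o, (w : ℚ)) (hFX w w.2) (o', (w' : ℚ)) (hFX w' w'.2) h
      simp only [Prod.mk.injEq] at h2
      exact Prod.ext h2.1 (Subtype.ext h2.2))
    convert h using 2 with o
    cases o with
    | none => rfl
    | some p => exact if_neg (hFpos _ p.2.2).ne'
  have hAI := group_indep (cLg a) (fun i => if_pos rfl) F hAI0 x hxF g z hinj hzF hzx
  set θ : Fin m → ℝ := fun j => cLg a (g j) (x (g j)) - cLg a (g j) (z j) with hθ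
  let S : Finset (ℚ × ℚ) := (F.image fun w => ((0 : ℚ), w)) ∪
    ((Finset.univ ×ˢ F).image fun p : Fin n × ℚ => ((0 : ℚ), a p.1 * p.2))
  have hS : ∀ p ∈ S, 0 ≤ p.1 ∧ p.1 < 1 ∧ 0 < p.2 := by
    intro p hp
    rcases Finset.mem_union.1 hp with hp | hp
    · obtain ⟨w, hw, rfl⟩ := Finset.mem_image.1 hp
      exact ⟨le_rfl, one_pos, hFpos w hw⟩
    · obtain ⟨q, hq, rfl⟩ := Finset.mem_image.1 hp
      exact ⟨le_rfl, one_pos, mul_pos (ha _) (hFpos _ (Finset.mem_product.1 hq).2)⟩
  have hM : MeasI (fun o : Option (Fin m) => o.elim (Real.exp 1) θ) := by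
    refine meas_gen 1 S hS _ hAI fun B gg hg heg hexp hE o => ?_
    have hoff : ∀ i, ∀ w ∈ insert 0 F, cLg a i w ∈ B := by
      intro i w hw
      rw [cLg]
      split_ifs with h
      · exact B.zero_mem
      · have hwF : w ∈ F := (Finset.mem_insert.1 hw).resolve_left h
        have h1 := hE ((0 : ℚ), w) (Finset.mem_union_left _ (Finset.mem_image_of_mem _ hwF)) 1 le_rfl le_rfl
        have h2 := hE ((0 : ℚ), a i * w) (Finset.mem_union_right _ (Finset.mem_image.2 ⟨(i, w),
          Finset.mem_product.2 ⟨Finset.mem_univ _, hwF⟩, rfl⟩)) 1 le_rfl le_rfl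
        rw [← EA_zero_eq, ← EA_zero_eq]
        refine B.sub_mem ?_ (by simpa using h1)
        simpa using h2
    cases o with
    | none => exact heg
    | some j => exact B.mul_mem (B.sub_mem (hoff _ _ (hxF _)) (hoff _ _ (hzF _))) hg
  obtain ⟨κ, c, hc, h⟩ := multi (Real.exp 1) θ hM n g (fun i => y i - cLg a i (x i)) D
  refine ⟨κ, c, hc, fun P Q hP hQ hPD hQD H hH hPH hQH ε hε1 hε2 => ?_⟩
  refine h P Q hP hQ hPD hQD H hH hPH hQH ε hε1 ?_
  have e : (fun o : Option (Fin m) => o.elim (Real.exp 1) (fun j => y (g j) - cLg a (g j) (x (g j)) + θ j)) =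
      fun o : Option (Fin m) => o.elim (Real.exp 1) (fun j => y (g j) - cLg a (g j) (z j)) := by
    funext o
    cases o with
    | none => rfl
    | some j =>
      simp only [Option.elim, hθ]
      ring
  rw [e]
  exact hε2

end Pool.Agent.Helper116_MU
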