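import Pool.Agent.Helper116_MU.Scale

/-!
# One number against several, at one scale (helper116)
-/

set_option autoImplicit false
set_option linter.unusedSectionVars false

open Finset

namespace Pool.Agent.Helper116_MU

open Pool.Agent.R356 (IsLen det_filt sylv_entry len len_C le_len)
open Pool.Agent.Helper116_EM

lemma shift_indep_s {ι : Type*} [Fintype ι] (η : ℝ) (θ : ι → ℝ) (s : ι → ℕ)
    (h : AlgebraicIndependent ℚ (fun o : Option ι => o.elim η θ)) (α : ℂ) (hα : α ∈ clC {(η : ℂ)}) :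
    AlgebraicIndependent ℚ (fun o : Option ι => o.elim (η : ℂ) (fun j => (θ j : ℂ) + (s j : ℂ) * α)) := by
  refine indepC_of_span (indepC_ofReal h) (fun i => ?_) le_rfl
  set T : Set ℂ := Set.range (fun o : Option ι => o.elim (η : ℂ) (fun j => (θ j : ℂ) + (s j : ℂ) * α)) with hT
  have hη : (η : ℂ) ∈ clC T := subset_clC T ⟨none, rfl⟩
  have hα' : α ∈ clC T := by
    refine clC_mono ?_ hα
    rintro _ rfl
    exact ⟨none, rfl⟩
  cases i with
  | none => exact hη
  | some j =>
    have h1 : (θ j : ℂ) + (s j : ℂ) * α ∈ clC T := subset_clC T ⟨some j, rfl⟩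
    have h2 : (s j : ℂ) * α ∈ clC T := (clC T).mul_mem (natCast_mem _ _) hα'
    have h3 := (clC T).sub_mem h1 h2
    rw [add_sub_cancel_right] at h3
    exact h3

/-- the constant -/
noncomputable def KK (D n : ℕ) : ℝ := ((D : ℝ) + 1) ^ (n + 2) * 2 ^ D

theorem names_at {ι : Type} [Fintype ι] (η : ℝ) (θ : ι → ℝ) (s : ι → ℕ) (hs : ∀ j, s j ≤ 1)
    (hAI : AlgebraicIndependent ℚ (fun o : Option ι => o.elim η θ)) (y : ℝ) (D k1 k2 : ℕ) (c1 c2 : ℝ)
    (hc1 : 0 < c1) (hc2 : 0 < c2) :
    ∃ (κ : ℕ) (c : ℝ), 0 < c ∧ ∀ H : ℝ, 1 ≤ H →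
      At (fun o : Option ι => o.elim η θ) D k1 c1 (KK D (Fintype.card ι) * H) →
      At (fun o : Option ι => o.elim η θ) ((2 * D) * D) k2 c2
        ((2 * D).factorial * (KK D (Fintype.card ι) * H) ^ (2 * D)) →
      ∀ (P : MvPolynomial (Fin 2) ℤ) (Q : MvPolynomial (Option ι) ℤ), P ≠ 0 → Q ≠ 0 →
      P.totalDegree ≤ D → Q.totalDegree ≤ D →
      (∀ s, |((MvPolynomial.coeff s P : ℤ) : ℝ)| ≤ H) → (∀ s, |((MvPolynomial.coeff s Q : ℤ) : ℝ)| ≤ H) →
      c ≤ H ^ κ * max |MvPolynomial.aeval ![η, y] P|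
        |MvPolynomial.aeval (fun o : Option ι => o.elim η (fun j => θ j + s j * y)) Q| := by
  classical
  set β : Option ι → ℝ := fun o => o.elim η θ with hβdef
  obtain ⟨k, c, hc, hm⟩ := joint_at (fun P hP => aeval_int_ne hAI P hP) y D k1 k2 c1 c2 hc1 hc2
  obtain ⟨K, hK⟩ : ∃ K : ℝ, K = KK D (Fintype.card ι) := ⟨_, rfl⟩
  have hD1 : (1 : ℝ) ≤ (D : ℝ) + 1 := by linarith [show (0 : ℝ) ≤ D by positivity]
  have hK1 : 1 ≤ K := by
    rw [hK, KK]
    exact one_le_mul_of_one_le_of_one_le (one_le_pow₀ hD1) (one_le_pow₀ (by norm_num))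
  refine ⟨k, c / K ^ k, by positivity, ?_⟩
  intro H hH hA1 hA2 P Q hP hQ hPD hQD hPH hQH
  rw [← hK] at hA1 hA2
  have hH0 : 0 ≤ H := by linarith
  -- the two polynomials
  let u : Fin 2 → Polynomial (MvPolynomial (Option ι) ℤ) := ![Polynomial.C (MvPolynomial.X none), Polynomial.X]
  let t : Option ι → ℕ := fun o => o.elim 0 s
  let v : Option ι → Polynomial (MvPolynomial (Option ι) ℤ) := fun j =>
    Polynomial.C (MvPolynomial.X j) + (t j : Polynomial (MvPolynomial (Option ι) ℤ)) * Polynomial.X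
  have ht : ∀ j, t j ≤ 1 := by
    intro j
    cases j with
    | none => exact Nat.zero_le _
    | some i => exact hs i
  have hu1 : ∀ j, u j ∈ pdF (Option ι) 1 := by
    intro j
    fin_cases j
    · exact pdF_C none
    · exact pdF_X
  have hu2 : ∀ j, len ml (u j) ≤ 2 := by
    intro j
    fin_cases j
    · exact (ply_C none).trans one_le_two
    · exact ply_X.trans one_le_two
  have hv1 : ∀ j, v j ∈ pdF (Option ι) 1 := by
    intro j
    refine add_mem (pdF_C j) ?_
    rw [← nsmul_eq_mul]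
    exact nsmul_mem pdF_X _
  have hv2 : ∀ j, len ml (v j) ≤ 2 := by
    intro j
    refine (isLen_ply.add _ _).trans ?_
    have h1 := ply_C (ι := Option ι) j
    have h2 : len (ml : MvPolynomial (Option ι) ℤ → ℝ)
        ((t j : Polynomial (MvPolynomial (Option ι) ℤ)) * Polynomial.X) ≤ 1 := by
      refine (isLen_ply.mul _ _).trans ?_
      have h3 := ply_int (ι := Option ι) (t j : ℤ)
      have h4 : |(((t j : ℕ) : ℤ) : ℝ)| ≤ 1 := by
        rw [Int.cast_natCast, Nat.abs_cast]
        exact_mod_cast ht j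
      have h5 : len (ml : MvPolynomial (Option ι) ℤ → ℝ) (t j : Polynomial (MvPolynomial (Option ι) ℤ)) ≤ 1 := by
        have h6 : ((t j : ℤ) : Polynomial (MvPolynomial (Option ι) ℤ)) =
            (t j : Polynomial (MvPolynomial (Option ι) ℤ)) := by push_cast; rfl
        rw [h6] at h3
        exact h3.trans h4
      exact mul_le_one₀ h5 (isLen_ply.nonneg _) ply_X
    linarith
  obtain ⟨hp1, hp2⟩ := side u hu1 hu2 D P hPD H hH0 hPH
  obtain ⟨hq1, hq2⟩ := side v hv1 hv2 D Q hQD H hH0 hQH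
  set p := MvPolynomial.aeval u P with hp
  set q := MvPolynomial.aeval v Q with hq
  have hKH : 1 ≤ K * H := one_le_mul_of_one_le_of_one_le hK1 hH
  have hp0 : p ≠ 0 := by
    intro h0
    apply hP
    let ψ : Polynomial (MvPolynomial (Option ι) ℤ) →+* MvPolynomial (Fin 2) ℤ :=
      Polynomial.eval₂RingHom (MvPolynomial.aeval (fun _ => (MvPolynomial.X 0 : MvPolynomial (Fin 2) ℤ)) :
        MvPolynomial (Option ι) ℤ →ₐ[ℤ] MvPolynomial (Fin 2) ℤ).toRingHom (MvPolynomial.X 1)
    have h1 := MvPolynomial.comp_aeval u ψ.toIntAlgHom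
    have h2 : ψ p = MvPolynomial.aeval (fun i => ψ (u i)) P := congrArg (fun F => F P) h1
    have h3 : (fun i => ψ (u i)) = MvPolynomial.X := by
      funext i
      fin_cases i
      · show ψ (Polynomial.C (MvPolynomial.X none)) = _
        simp [ψ]
      · show ψ Polynomial.X = _
        simp [ψ]
    rw [h3, MvPolynomial.aeval_X_left_apply, h0, map_zero] at h2
    exact h2.symm
  have hevu : ∀ α : ℂ, (fun j => ((u j).map (evC β)).eval α) = ![(η : ℂ), α] := by
    intro α
    funext j
    fin_cases j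
    · show ((Polynomial.C (MvPolynomial.X none)).map (evC β)).eval α = _
      rw [Polynomial.map_C, Polynomial.eval_C, evC_apply, MvPolynomial.aeval_X]
      rfl
    · show ((Polynomial.X : Polynomial (MvPolynomial (Option ι) ℤ)).map (evC β)).eval α = _
      rw [Polynomial.map_X, Polynomial.eval_X]
      rfl
  have hevv : ∀ α : ℂ, (fun j => ((v j).map (evC β)).eval α) =
      (fun o : Option ι => o.elim (η : ℂ) (fun j => (θ j : ℂ) + (s j : ℂ) * α)) := by
    intro α
    funext j
    show ((Polynomial.C (MvPolynomial.X j) + (t j : Polynomial (MvPolynomial (Option ι) ℤ)) *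
      Polynomial.X).map (evC β)).eval α = _
    rw [Polynomial.map_add, Polynomial.eval_add, Polynomial.map_C, Polynomial.eval_C, evC_apply, MvPolynomial.aeval_X,
      Polynomial.map_mul, Polynomial.eval_mul, Polynomial.map_X, Polynomial.eval_X, Polynomial.map_natCast,
      Polynomial.eval_natCast]
    cases j with
    | none => simp [t, hβdef]
    | some i => simp [t, hβdef]
  have hη : Transcendental ℚ η := hAI.transcendental none
  have hcop : ∀ α : ℂ, (p.map (evC β)).eval α = 0 → (q.map (evC β)).eval α ≠ 0 := by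
    intro α hα
    rw [hp, eval_side, hevu α] at hα
    rw [hq, eval_side, hevv α]
    have h1 := mem_of_rel hη α P hP hα
    exact aeval_int_ne (shift_indep_s η θ s hAI α h1) Q hQ
  have hKle : ∀ n : ℕ, n ≤ Fintype.card ι + 2 → (((D : ℝ) + 1) ^ n * 2 ^ D) * H ≤ K * H := by
    intro n hn
    rw [hK, KK]
    refine mul_le_mul_of_nonneg_right ?_ hH0
    exact mul_le_mul_of_nonneg_right (pow_le_pow_right₀ hD1 hn) (by positivity)
  have key := hm (K * H) hKH hA1 hA2 p q hp0 hp1 hq1
    (fun i => (hp2 i).trans (hKle _ (by rw [Fintype.card_fin]; omega)))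
    (fun i => (hq2 i).trans (hKle _ (by rw [Fintype.card_option]; omega))) hcop
  have e1 : ‖(p.map (evC β)).eval (y : ℂ)‖ = |MvPolynomial.aeval ![η, y] P| := by
    rw [hp, eval_side, hevu, ← norm_aeval_ofReal]
    congr 2
    congr 1
    funext j
    fin_cases j <;> rfl
  have e2 : ‖(q.map (evC β)).eval (y : ℂ)‖ =
      |MvPolynomial.aeval (fun o : Option ι => o.elim η (fun j => θ j + s j * y)) Q| := by
    rw [hq, eval_side, hevv, ← norm_aeval_ofReal]
    congr 2
    congr 1
    funext j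
    cases j with
    | none => rfl
    | some i => simp
  rw [e1, e2] at key
  rw [div_le_iff₀ (by positivity)]
  calc c ≤ (K * H) ^ k * _ := key
    _ = _ := by rw [mul_pow]; ring

end Pool.Agent.Helper116_MU
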