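import Mathlib
import Pool.Agent.Helper116_MU.Logs
import Pool.Agent.Helper116_WL.Gen
import Pool.Agent.Helper116_EM.ZetaAll

/-!
# `π`, the odd zeta values and the tails of their integrals (helper116)
-/

set_option autoImplicit false
set_option linter.unusedSectionVars false

open Finset

namespace Pool.Agent.Helper116_MU

open Pool.Agent.R352.T (EA EA_alg_Q PI)
open Pool.Agent.R352.E (EE clF subset_clF indep_of_span of_pow rat_mem)
open Pool.Agent.R352.Q (Zk W mem_of_Zk)
open Pool.Agent.Helper116_EM (MeasI meas_gen' EA_zero_eq Zk_mem_ring)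
open Pool.Agent.Helper116_WL (cT)

/-- the offsets: group `0` is `π`, group `i ≥ 1` is `ζ(2i+1)` -/
noncomputable def cZ (i : ℕ) (x : ℚ) : ℝ := if x = 0 then 0 else if i = 0 then cT x else Zk (2 * i + 1) x

lemma base_indep (J : ℕ) (F : Finset ℚ) (hF : ∀ x ∈ F, 0 < x) :
    AlgebraicIndependent ℚ (fun o : Option (Option (Fin J) × F) => o.elim (Real.exp 1)
      (fun p => p.1.elim (EA (1 / 2) 1 ((p.2 : ℚ) : ℝ)) (fun l => EE (l + 1) ((p.2 : ℚ) : ℝ)))) := by
  classical
  let f : Option (Option (Fin J) × F) → Option PI := Option.map fun p =>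
    p.1.elim ⟨(0, 1 / 2, p.2), by norm_num, by norm_num, hF _ p.2.2⟩
      (fun l => ⟨((l : ℕ), 0, p.2), le_rfl, one_pos, hF _ p.2.2⟩)
  have hf : Function.Injective f := by
    refine Option.map_injective ?_
    rintro ⟨_ | l, x⟩ ⟨_ | l', x'⟩ h
    · simp only [Option.elim, Subtype.mk.injEq, Prod.mk.injEq, true_and] at h
      rw [Subtype.ext h]
    · simp [Option.elim] at h
    · simp [Option.elim] at h
    · simp only [Option.elim, Subtype.mk.injEq, Prod.mk.injEq, true_and] at h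
      have h1 : l = l' := Fin.ext h.1
      have h2 : x = x' := Subtype.ext h.2
      rw [h1, h2]
  have h2 := EA_alg_Q.comp f hf
  convert h2 using 1
  funext o
  rcases o with _ | ⟨_ | l, x⟩
  · rfl
  · simp [f]
  · simp [f, EA_zero_eq]

lemma cZ_indep (c : ℕ) (F : Finset ℚ) (hF : ∀ x ∈ F, 0 < x) :
    AlgebraicIndependent ℚ (fun o : Option (Fin (c + 1) × F) => o.elim (Real.exp 1) (fun p => cZ p.1 p.2)) := by
  classical
  obtain ⟨J, hJ⟩ : ∃ J, J = 2 * c + 1 := ⟨_, rfl⟩
  let V : Option (Option (Fin J) × F) → ℝ := fun o => o.elim (Real.exp 1)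
      (fun p => p.1.elim (cT p.2) (fun l => W l ((p.2 : ℚ) : ℝ)))
  have hV : AlgebraicIndependent ℚ V := by
    refine indep_of_span (base_indep J F hF) (fun o => ?_) le_rfl
    have he : Real.exp 1 ∈ clF (Set.range V) := subset_clF _ ⟨none, rfl⟩
    rcases o with _ | ⟨_ | l, x⟩
    · exact he
    · set T := Set.range V with hT
      have hx0 : (0 : ℝ) < (x : ℚ) := by exact_mod_cast hF x x.2
      have h2 : ((x : ℚ) : ℝ) * (2 - EA (1 / 2) 1 ((x : ℚ) : ℝ)) ^ 2 ∈ clF T := subset_clF T ⟨some (none, x), rfl⟩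
      have h3 := (clF T).div_mem h2 (rat_mem T x)
      rw [mul_div_cancel_left₀ _ hx0.ne'] at h3
      have h4 := of_pow two_ne_zero h3
      have h5 : (2 : ℝ) ∈ clF T := by exact_mod_cast rat_mem T 2
      have h6 := (clF T).sub_mem h5 h4
      rw [sub_sub_cancel] at h6
      exact h6
    · have hJ' := l.2
      refine mem_of_Zk (hF _ x.2) he ?_ (J := J) (by omega) (fun k hk hk' => ?_) (l + 1) (by omega)
      · refine subset_clF _ ⟨some (some ⟨0, by omega⟩, x), ?_⟩
        simp [V, W]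
      · refine subset_clF _ ⟨some (some ⟨k - 1, by omega⟩, x), ?_⟩
        simp only [V, Option.elim, W]
        rw [if_neg (by omega), Nat.sub_add_cancel (by omega)]
  let f : Option (Fin (c + 1) × F) → Option (Option (Fin J) × F) := Option.map fun p =>
    (if h : (p.1 : ℕ) = 0 then none else some ⟨2 * p.1, by have := p.1.2; omega⟩, p.2)
  have hf : Function.Injective f := by
    refine Option.map_injective ?_
    rintro ⟨i, x⟩ ⟨i', x'⟩ h
    simp only [Prod.mk.injEq] at h
    obtain ⟨h1, h2⟩ := h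
    have h3 : i = i' := by
      split_ifs at h1 with h4 h5 h5
      · exact Fin.ext (h4.trans h5.symm)
      · simp only [Option.some.injEq, Fin.mk.injEq] at h1
        exact Fin.ext (by omega)
    rw [h3, h2]
  have h2 := hV.comp f hf
  convert h2 using 1
  funext o
  rcases o with _ | ⟨i, x⟩
  · rfl
  · have hx0 : (x : ℚ) ≠ 0 := (hF _ x.2).ne'
    simp only [Option.elim, cZ, if_neg hx0, Function.comp_apply, f, Option.map_some, V]
    by_cases hi : (i : ℕ) = 0
    · simp [hi]
    · have e1 : (2 * (i : ℕ) = 0) = False := by simp [hi]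
      simp only [hi, if_false, dite_false, W, e1]

theorem zp_multi {c m : ℕ} (y : Fin (c + 1) → ℝ) (x : Fin (c + 1) → ℚ) (hx : ∀ i, 0 ≤ x i)
    (g : Fin m → Fin (c + 1)) (z : Fin m → ℚ) (hinj : Function.Injective (fun j => (g j, z j)))
    (hz : ∀ j, 0 ≤ z j) (hzx : ∀ j, z j ≠ x (g j)) (D : ℕ) :
    ∃ (κ : ℕ) (C : ℝ), 0 < C ∧ ∀ (P : Fin (c + 1) → MvPolynomial (Fin 2) ℤ) (Q : MvPolynomial (Option (Fin m)) ℤ),
      (∀ i, P i ≠ 0) → Q ≠ 0 → (∀ i, (P i).totalDegree ≤ D) → Q.totalDegree ≤ D → ∀ H : ℝ, 1 ≤ H →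
      (∀ i s, |((MvPolynomial.coeff s (P i) : ℤ) : ℝ)| ≤ H) → (∀ s, |((MvPolynomial.coeff s Q : ℤ) : ℝ)| ≤ H) →
      ∀ ε : ℝ, (∀ i : Fin (c + 1), |MvPolynomial.aeval ![Real.exp 1, y i - cZ i (x i)] (P i)| ≤ ε) →
        |MvPolynomial.aeval (fun o : Option (Fin m) => o.elim (Real.exp 1)
          (fun j => y (g j) - cZ (g j) (z j))) Q| ≤ ε → C ≤ H ^ κ * ε := by
  classical
  set F : Finset ℚ := ((Finset.univ.image x) ∪ (Finset.univ.image z)).erase 0 with hF
  have hxF : ∀ i, x i ∈ insert 0 F := by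
    intro i
    by_cases h : x i = 0
    · rw [h]; exact Finset.mem_insert_self _ _
    · exact Finset.mem_insert_of_mem (Finset.mem_erase.2 ⟨h, Finset.mem_union_left _
        (Finset.mem_image_of_mem _ (Finset.mem_univ _))⟩)
  have hzF : ∀ j, z j ∈ insert 0 F := by
    intro j
    by_cases h : z j = 0
    · rw [h]; exact Finset.mem_insert_self _ _
    · exact Finset.mem_insert_of_mem (Finset.mem_erase.2 ⟨h, Finset.mem_union_right _
        (Finset.mem_image_of_mem _ (Finset.mem_univ _))⟩)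
  have hFpos : ∀ w ∈ F, 0 < w := by
    intro w hw
    obtain ⟨hw0, hw⟩ := Finset.mem_erase.1 hw
    rcases Finset.mem_union.1 hw with hw | hw
    · obtain ⟨i, -, rfl⟩ := Finset.mem_image.1 hw
      exact lt_of_le_of_ne (hx i) (Ne.symm hw0)
    · obtain ⟨j, -, rfl⟩ := Finset.mem_image.1 hw
      exact lt_of_le_of_ne (hz j) (Ne.symm hw0)
  have hAI := group_indep (fun (i : Fin (c + 1)) w => cZ i w) (fun i => if_pos rfl) F (cZ_indep c F hFpos) x hxF g z
    hinj hzF hzx
  set θ : Fin m → ℝ := fun j => cZ (g j) (x (g j)) - cZ (g j) (z j) with hθ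
  let S : Finset (ℚ × ℚ) := (F.image fun w => ((0 : ℚ), w)) ∪ (F.image fun w => ((1 / 2 : ℚ), w))
  have hS : ∀ p ∈ S, 0 ≤ p.1 ∧ p.1 < 1 ∧ 0 < p.2 := by
    intro p hp
    rcases Finset.mem_union.1 hp with hp | hp
    · obtain ⟨w, hw, rfl⟩ := Finset.mem_image.1 hp
      exact ⟨le_rfl, one_pos, hFpos w hw⟩
    · obtain ⟨w, hw, rfl⟩ := Finset.mem_image.1 hp
      exact ⟨by norm_num, by norm_num, hFpos w hw⟩
  set N : ℕ := ∏ w ∈ F, w.den with hN
  have hN0 : N ≠ 0 := Finset.prod_ne_zero_iff.2 fun w _ => w.den_ne_zero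
  have hM : MeasI (fun o : Option (Fin m) => o.elim (Real.exp 1) θ) := by
    refine meas_gen' (2 * c + 1) S hS N hN0 _ hAI fun B gg hg heg hexp hE o => ?_
    have hNB : (N : ℝ) ∈ B := natCast_mem _ _
    have hoff : ∀ i : Fin (c + 1), ∀ w ∈ insert 0 F, cZ i w * (N * gg) ∈ B := by
      intro i w hw
      rw [cZ]
      split_ifs with h hi
      · rw [zero_mul]; exact B.zero_mem
      · have hwF : w ∈ F := (Finset.mem_insert.1 hw).resolve_left h
        have h2 := hE ((1 / 2 : ℚ), w) (Finset.mem_union_right _ (Finset.mem_image_of_mem _ hwF)) 1 le_rfl (by omega)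
        have h3 : EA (1 / 2) 1 (w : ℝ) ∈ B := by simpa using h2
        rw [cT]
        obtain ⟨M, hM⟩ : w.den ∣ N := Finset.dvd_prod_of_mem (fun w => w.den) hwF
        have hd : (w.den : ℝ) ≠ 0 := by exact_mod_cast w.den_ne_zero
        have h5 : (w : ℝ) * N = (w.num : ℝ) * M := by
          rw [hM]
          have h6 : (w : ℝ) = (w.num : ℝ) / (w.den : ℝ) := by exact_mod_cast (Rat.num_div_den w).symm
          rw [h6]
          push_cast
          field_simp
        have h7 : (w : ℝ) * (2 - EA (1 / 2) 1 (w : ℝ)) ^ 2 * (N * gg) =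
            ((w.num : ℤ) : ℝ) * (M : ℝ) * ((2 - EA (1 / 2) 1 (w : ℝ)) ^ 2 * gg) := by
          linear_combination (2 - EA (1 / 2) 1 (w : ℝ)) ^ 2 * gg * h5
        rw [h7]
        refine B.mul_mem (B.mul_mem (intCast_mem _ _) (natCast_mem _ _)) (B.mul_mem (B.pow_mem (B.sub_mem ?_ h3) 2) hg)
        exact_mod_cast natCast_mem B 2
      · have hwF : w ∈ F := (Finset.mem_insert.1 hw).resolve_left h
        have hmem : ((0 : ℚ), w) ∈ S := Finset.mem_union_left _ (Finset.mem_image_of_mem _ hwF)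
        have hw0 : (0 : ℝ) < w := by exact_mod_cast hFpos w hwF
        have hi' := i.2
        have h3 := Zk_mem_ring B hw0 (2 * i + 1) (by omega) (hexp _ hmem) (fun l h1 h2' => by
          have h3 := hE _ hmem l h1 (by omega)
          simpa using h3)
        exact B.mul_mem h3 (B.mul_mem hNB hg)
    cases o with
    | none =>
      show Real.exp 1 * ((N : ℝ) * gg) ∈ B
      have h2 : Real.exp 1 * ((N : ℝ) * gg) = N * (Real.exp 1 * gg) := by ring
      rw [h2]
      exact B.mul_mem hNB heg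
    | some j =>
      show θ j * ((N : ℝ) * gg) ∈ B
      simp only [hθ]
      rw [sub_mul]
      exact B.sub_mem (hoff _ _ (hxF _)) (hoff _ _ (hzF _))
  obtain ⟨κ, C, hC, h⟩ := multi (Real.exp 1) θ hM (c + 1) g (fun i => y i - cZ i (x i)) D
  refine ⟨κ, C, hC, fun P Q hP hQ hPD hQD H hH hPH hQH ε hε1 hε2 => ?_⟩
  refine h P Q hP hQ hPD hQD H hH hPH hQH ε hε1 ?_
  have e : (fun o : Option (Fin m) => o.elim (Real.exp 1) (fun j => y (g j) - cZ (g j) (x (g j)) + θ j)) =
      fun o : Option (Fin m) => o.elim (Real.exp 1) (fun j => y (g j) - cZ (g j) (z j)) := by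
    funext o
    cases o with
    | none => rfl
    | some j =>
      simp only [Option.elim, hθ]
      ring
  rw [e]
  exact hε2

end Pool.Agent.Helper116_MU
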