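import Pool.Agent.Helper116_MU.StepG
import Pool.Agent.Helper116_MU.ZetaPi

/-!
# Two unknown numbers and an approximate relation between them (helper116)
-/

set_option autoImplicit false
set_option linter.unusedSectionVars false

open Finset Filter

namespace Pool.Agent.Helper116_MU

open Pool.Agent.Helper116_EM
open Pool.Agent.R352.T (EA)
open Pool.Agent.Helper116_WL (cT)

/-- **Two unknown numbers `u` and `ρ`.** -/
theorem rel_multi {ι : Type} [Fintype ι] (η : ℝ) (θ : ι → ℝ) (hβ : MeasI (fun o : Option ι => o.elim η θ))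
    (g : ι → Fin 2) (j₀ : ι) (hj₀ : g j₀ = 0) (e : ℕ) (u ρ : ℝ) (D : ℕ) :
    ∃ (κ : ℕ) (c : ℝ), 0 < c ∧ ∀ (P₁ P₂ : MvPolynomial (Fin 2) ℤ) (Q : MvPolynomial (Option ι) ℤ),
      P₁ ≠ 0 → P₂ ≠ 0 → Q ≠ 0 → P₁.totalDegree ≤ D → P₂.totalDegree ≤ D → Q.totalDegree ≤ D → ∀ H : ℝ, 1 ≤ H →
      (∀ s, |((MvPolynomial.coeff s P₁ : ℤ) : ℝ)| ≤ H) → (∀ s, |((MvPolynomial.coeff s P₂ : ℤ) : ℝ)| ≤ H) →
      (∀ s, |((MvPolynomial.coeff s Q : ℤ) : ℝ)| ≤ H) →
      ∀ ε : ℝ, |MvPolynomial.aeval ![η, u] P₁| ≤ ε → |MvPolynomial.aeval ![η, ρ] P₂| ≤ ε →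
        |MvPolynomial.aeval (fun o : Option ι => o.elim η (fun j => if g j = 0 then u + θ j else
          θ j + ρ * (u + θ j₀) ^ e)) Q| ≤ ε → c ≤ H ^ κ * ε := by
  by_contra hcon
  push Not at hcon
  have hcon' : ∀ N : ℕ, ∃ (P₁ P₂ : MvPolynomial (Fin 2) ℤ) (Q : MvPolynomial (Option ι) ℤ),
      P₁ ≠ 0 ∧ P₂ ≠ 0 ∧ Q ≠ 0 ∧ P₁.totalDegree ≤ D ∧ P₂.totalDegree ≤ D ∧ Q.totalDegree ≤ D ∧ ∃ H : ℝ, 1 ≤ H ∧
      (∀ s, |((MvPolynomial.coeff s P₁ : ℤ) : ℝ)| ≤ H) ∧ (∀ s, |((MvPolynomial.coeff s P₂ : ℤ) : ℝ)| ≤ H) ∧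
      (∀ s, |((MvPolynomial.coeff s Q : ℤ) : ℝ)| ≤ H) ∧
      ∃ ε : ℝ, |MvPolynomial.aeval ![η, u] P₁| ≤ ε ∧ |MvPolynomial.aeval ![η, ρ] P₂| ≤ ε ∧
        |MvPolynomial.aeval (fun o : Option ι => o.elim η (fun j => if g j = 0 then u + θ j else
          θ j + ρ * (u + θ j₀) ^ e)) Q| ≤ ε ∧
        H ^ N * ε < 1 / ((N : ℝ) + 1) := fun N => hcon N (1 / ((N : ℝ) + 1)) (by positivity)
  choose P₁ P₂ Q hP1 hP2 hQ hP1D hP2D hQD h h1 hP1h hP2h hQh ε hP1ε hP2ε hQε hlt using hcon'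
  -- everything bounded by `ε` is small
  have hsmall : ∀ x : ℕ → ℝ, (∀ N, |x N| ≤ ε N) → Small x h := by
    intro x hx κ c hc
    obtain ⟨N₀, hN₀⟩ := exists_nat_gt (1 / c)
    filter_upwards [eventually_ge_atTop (max κ N₀)] with N hN
    have hN1 : κ ≤ N := (le_max_left _ _).trans hN
    have hN2 : N₀ ≤ N := (le_max_right _ _).trans hN
    have hh := h1 N
    have e1 : h N ^ κ * |x N| ≤ h N ^ N * ε N :=
      mul_le_mul (pow_le_pow_right₀ hh hN1) (hx N) (abs_nonneg _) (by positivity)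
    refine (e1.trans_lt (hlt N)).trans_le ?_
    have e2 : (1 / c) < (N : ℝ) + 1 := by
      have : (N₀ : ℝ) ≤ N := by exact_mod_cast hN2
      linarith
    rw [div_lt_iff₀ hc] at e2
    rw [div_le_iff₀ (by positivity)]
    linarith
  have hs1 := (MeasSeq.of_measI hβ h1).step h1 (fun j => if g j = 0 then 1 else 0) (fun j => by
    show (if g j = 0 then 1 else 0) ≤ 1
    split_ifs <;> omega) u D P₁ hP1 hP1D hP1h (hsmall _ hP1ε)
  have hs2 := hs1.stepG h1 (fun j => if g j = 0 then 0 else 1) (fun j => by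
    show (if g j = 0 then 0 else 1) ≤ 1
    split_ifs <;> omega) j₀ (if_pos hj₀) e ρ D P₂ hP2 hP2D hP2h (hsmall _ hP2ε)
  have efun : (fun o : Option ι => o.elim η (fun j => θ j + ((if g j = 0 then 1 else 0 : ℕ) : ℝ) * u +
      ((if g j = 0 then 0 else 1 : ℕ) : ℝ) * (θ j₀ + ((if g j₀ = 0 then 1 else 0 : ℕ) : ℝ) * u) ^ e * ρ)) =
      fun o : Option ι => o.elim η (fun j => if g j = 0 then u + θ j else θ j + ρ * (u + θ j₀) ^ e) := by
    funext o
    cases o with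
    | none => rfl
    | some j =>
      simp only [Option.elim]
      rw [if_pos hj₀]
      by_cases hj : g j = 0
      · rw [if_pos hj, if_pos hj, if_pos hj]
        push_cast
        ring
      · rw [if_neg hj, if_neg hj, if_neg hj]
        push_cast
        ring
  rw [efun] at hs2
  obtain ⟨κ, c, hc, hm⟩ := hs2 D 1
  have hsm := hsmall _ hQε κ c hc
  obtain ⟨N, hN1, hN2⟩ := (hm.and hsm).exists
  have h3 := hN1 (Q N) (hQ N) (hQD N) (fun v => by
    have := hQh N v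
    simpa using this)
  linarith

/-- the measure for the differences of the offsets of `π` and the odd zeta values -/
theorem zp_meas {c m : ℕ} (x : Fin (c + 1) → ℚ) (hx : ∀ i, 0 ≤ x i)
    (g : Fin m → Fin (c + 1)) (z : Fin m → ℚ) (hinj : Function.Injective (fun j => (g j, z j)))
    (hz : ∀ j, 0 ≤ z j) (hzx : ∀ j, z j ≠ x (g j)) :
    MeasI (fun o : Option (Fin m) => o.elim (Real.exp 1) (fun j => cZ (g j) (x (g j)) - cZ (g j) (z j))) := by
  classical
  set F : Finset ℚ := ((Finset.univ.image x) ∪ (Finset.univ.image z)).erase 0 with hF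
  have hxF : ∀ i, x i ∈ insert 0 F := by
    intro i
    by_cases h : x i = 0
    · rw [h]; exact Finset.mem_insert_self _ _
    · exact Finset.mem_insert_of_mem (Finset.mem_erase.2 ⟨h, Finset.mem_union_left _
        (Finset.mem_image_of_mem _ (Finset.mem_univ _))⟩)
  have hzF : ∀ j, z j ∈ insert 0 F := by
    intro j
    by_cases h : z j = 0
    · rw [h]; exact Finset.mem_insert_self _ _
    · exact Finset.mem_insert_of_mem (Finset.mem_erase.2 ⟨h, Finset.mem_union_right _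
        (Finset.mem_image_of_mem _ (Finset.mem_univ _))⟩)
  have hFpos : ∀ w ∈ F, 0 < w := by
    intro w hw
    obtain ⟨hw0, hw⟩ := Finset.mem_erase.1 hw
    rcases Finset.mem_union.1 hw with hw | hw
    · obtain ⟨i, -, rfl⟩ := Finset.mem_image.1 hw
      exact lt_of_le_of_ne (hx i) (Ne.symm hw0)
    · obtain ⟨j, -, rfl⟩ := Finset.mem_image.1 hw
      exact lt_of_le_of_ne (hz j) (Ne.symm hw0)
  have hAI := group_indep (fun (i : Fin (c + 1)) w => cZ i w) (fun i => if_pos rfl) F (cZ_indep c F hFpos) x hxF g z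
    hinj hzF hzx
  set θ : Fin m → ℝ := fun j => cZ (g j) (x (g j)) - cZ (g j) (z j) with hθ
  let S : Finset (ℚ × ℚ) := (F.image fun w => ((0 : ℚ), w)) ∪ (F.image fun w => ((1 / 2 : ℚ), w))
  have hS : ∀ p ∈ S, 0 ≤ p.1 ∧ p.1 < 1 ∧ 0 < p.2 := by
    intro p hp
    rcases Finset.mem_union.1 hp with hp | hp
    · obtain ⟨w, hw, rfl⟩ := Finset.mem_image.1 hp
      exact ⟨le_rfl, one_pos, hFpos w hw⟩
    · obtain ⟨w, hw, rfl⟩ := Finset.mem_image.1 hp
      exact ⟨by norm_num, by norm_num, hFpos w hw⟩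
  set N : ℕ := ∏ w ∈ F, w.den with hN
  have hN0 : N ≠ 0 := Finset.prod_ne_zero_iff.2 fun w _ => w.den_ne_zero
  refine meas_gen' (2 * c + 1) S hS N hN0 _ hAI fun B gg hg heg hexp hE o => ?_
  have hNB : (N : ℝ) ∈ B := natCast_mem _ _
  have hoff : ∀ i : Fin (c + 1), ∀ w ∈ insert 0 F, cZ i w * (N * gg) ∈ B := by
    intro i w hw
    rw [cZ]
    split_ifs with h hi
    · rw [zero_mul]; exact B.zero_mem
    · have hwF : w ∈ F := (Finset.mem_insert.1 hw).resolve_left h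
      have h2 := hE ((1 / 2 : ℚ), w) (Finset.mem_union_right _ (Finset.mem_image_of_mem _ hwF)) 1 le_rfl (by omega)
      have h3 : EA (1 / 2) 1 (w : ℝ) ∈ B := by simpa using h2
      rw [cT]
      obtain ⟨M, hM⟩ : w.den ∣ N := Finset.dvd_prod_of_mem (fun w => w.den) hwF
      have hd : (w.den : ℝ) ≠ 0 := by exact_mod_cast w.den_ne_zero
      have h5 : (w : ℝ) * N = (w.num : ℝ) * M := by
        rw [hM]
        have h6 : (w : ℝ) = (w.num : ℝ) / (w.den : ℝ) := by exact_mod_cast (Rat.num_div_den w).symm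
        rw [h6]
        push_cast
        field_simp
      have h7 : (w : ℝ) * (2 - EA (1 / 2) 1 (w : ℝ)) ^ 2 * (N * gg) =
          ((w.num : ℤ) : ℝ) * (M : ℝ) * ((2 - EA (1 / 2) 1 (w : ℝ)) ^ 2 * gg) := by
        linear_combination (2 - EA (1 / 2) 1 (w : ℝ)) ^ 2 * gg * h5
      rw [h7]
      refine B.mul_mem (B.mul_mem (intCast_mem _ _) (natCast_mem _ _)) (B.mul_mem (B.pow_mem (B.sub_mem ?_ h3) 2) hg)
      exact_mod_cast natCast_mem B 2
    · have hwF : w ∈ F := (Finset.mem_insert.1 hw).resolve_left h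
      have hmem : ((0 : ℚ), w) ∈ S := Finset.mem_union_left _ (Finset.mem_image_of_mem _ hwF)
      have hw0 : (0 : ℝ) < w := by exact_mod_cast hFpos w hwF
      have hi' := i.2
      have h3 := Zk_mem_ring B hw0 (2 * i + 1) (by omega) (hexp _ hmem) (fun l h1 h2' => by
        have h3 := hE _ hmem l h1 (by omega)
        simpa using h3)
      exact B.mul_mem h3 (B.mul_mem hNB hg)
  cases o with
  | none =>
    show Real.exp 1 * ((N : ℝ) * gg) ∈ B
    have h2 : Real.exp 1 * ((N : ℝ) * gg) = N * (Real.exp 1 * gg) := by ring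
    rw [h2]
    exact B.mul_mem hNB heg
  | some j =>
    show θ j * ((N : ℝ) * gg) ∈ B
    simp only [hθ]
    rw [sub_mul]
    exact B.sub_mem (hoff _ _ (hxF _)) (hoff _ _ (hzF _))

end Pool.Agent.Helper116_MU
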