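import Pool.Agent.Helper116_MU.Seq

/-!
# One step with a relation between two unknown numbers (helper116)
-/

set_option autoImplicit false
set_option linter.unusedSectionVars false

open Finset Filter

namespace Pool.Agent.Helper116_MU

open Pool.Agent.R356 (IsLen det_filt sylv_entry len len_C le_len)
open Pool.Agent.Helper116_EM

lemma shift_indep_G {ι : Type*} [Fintype ι] (η : ℝ) (θ : ι → ℝ) (s : ι → ℕ) (j₀ : ι) (hj₀ : s j₀ = 0) (e : ℕ)
    (h : AlgebraicIndependent ℚ (fun o : Option ι => o.elim η θ)) (α : ℂ) (hα : α ∈ clC {(η : ℂ)}) :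
    AlgebraicIndependent ℚ (fun o : Option ι => o.elim (η : ℂ)
      (fun j => (θ j : ℂ) + (s j : ℂ) * (θ j₀ : ℂ) ^ e * α)) := by
  refine indepC_of_span (indepC_ofReal h) (fun i => ?_) le_rfl
  set T : Set ℂ := Set.range (fun o : Option ι => o.elim (η : ℂ)
    (fun j => (θ j : ℂ) + (s j : ℂ) * (θ j₀ : ℂ) ^ e * α)) with hT
  have hη : (η : ℂ) ∈ clC T := subset_clC T ⟨none, rfl⟩
  have hα' : α ∈ clC T := by
    refine clC_mono ?_ hα
    rintro _ rfl
    exact ⟨none, rfl⟩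
  have h0 : (θ j₀ : ℂ) ∈ clC T := by
    have h1 : (θ j₀ : ℂ) + (s j₀ : ℂ) * (θ j₀ : ℂ) ^ e * α ∈ clC T := subset_clC T ⟨some j₀, rfl⟩
    rw [hj₀] at h1
    simpa using h1
  cases i with
  | none => exact hη
  | some j =>
    have h1 : (θ j : ℂ) + (s j : ℂ) * (θ j₀ : ℂ) ^ e * α ∈ clC T := subset_clC T ⟨some j, rfl⟩
    have h2 : (s j : ℂ) * (θ j₀ : ℂ) ^ e * α ∈ clC T :=
      (clC T).mul_mem ((clC T).mul_mem (natCast_mem _ _) ((clC T).pow_mem h0 _)) hα'
    have h3 := (clC T).sub_mem h1 h2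
    rw [add_sub_cancel_right] at h3
    exact h3

lemma sideG {ι κ : Type*} [Fintype ι] [Fintype κ] (v : κ → Polynomial (MvPolynomial ι ℤ)) (d : ℕ)
    (hv : ∀ j, v j ∈ pdF ι d)
    (hvΛ : ∀ j, len ml (v j) ≤ 2) (D : ℕ) (Q : MvPolynomial κ ℤ) (hQ : Q.totalDegree ≤ D) (H : ℝ) (hH : 0 ≤ H)
    (hQH : ∀ s, |((MvPolynomial.coeff s Q : ℤ) : ℝ)| ≤ H) :
    MvPolynomial.aeval v Q ∈ pdF ι (D * d) ∧
      ∀ i, ml ((MvPolynomial.aeval v Q).coeff i) ≤ (((D : ℝ) + 1) ^ (Fintype.card κ) * 2 ^ D) * H := by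
  refine ⟨?_, fun i => ?_⟩
  · exact subst_filt (pdF ι) (pdF_one ι) (pdF_mul ι) (pdF_mono ι) v d hv D Q hQ
  · refine (le_len isLen_ml _ i).trans ?_
    refine (subst_len isLen_ply ply_int v 2 one_le_two hvΛ D Q hQ H hH hQH).trans (le_of_eq ?_)
    ring

theorem names_atG {ι : Type} [Fintype ι] (η : ℝ) (θ : ι → ℝ) (s : ι → ℕ) (hs : ∀ j, s j ≤ 1) (j₀ : ι) (hj₀ : s j₀ = 0)
    (e : ℕ)
    (hAI : AlgebraicIndependent ℚ (fun o : Option ι => o.elim η θ)) (y : ℝ) (D k1 k2 : ℕ) (c1 c2 : ℝ)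
    (hc1 : 0 < c1) (hc2 : 0 < c2) :
    ∃ (κ : ℕ) (c : ℝ), 0 < c ∧ ∀ H : ℝ, 1 ≤ H →
      At (fun o : Option ι => o.elim η θ) (D * (e + 1)) k1 c1 (KK D (Fintype.card ι) * H) →
      At (fun o : Option ι => o.elim η θ) ((2 * (D * (e + 1))) * (D * (e + 1))) k2 c2
        ((2 * (D * (e + 1))).factorial * (KK D (Fintype.card ι) * H) ^ (2 * (D * (e + 1)))) →
      ∀ (P : MvPolynomial (Fin 2) ℤ) (Q : MvPolynomial (Option ι) ℤ), P ≠ 0 → Q ≠ 0 →
      P.totalDegree ≤ D → Q.totalDegree ≤ D →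
      (∀ s, |((MvPolynomial.coeff s P : ℤ) : ℝ)| ≤ H) → (∀ s, |((MvPolynomial.coeff s Q : ℤ) : ℝ)| ≤ H) →
      c ≤ H ^ κ * max |MvPolynomial.aeval ![η, y] P|
        |MvPolynomial.aeval (fun o : Option ι => o.elim η (fun j => θ j + s j * θ j₀ ^ e * y)) Q| := by
  classical
  set β : Option ι → ℝ := fun o => o.elim η θ with hβdef
  obtain ⟨k, c, hc, hm⟩ := joint_at (fun P hP => aeval_int_ne hAI P hP) y (D * (e + 1)) k1 k2 c1 c2 hc1 hc2
  obtain ⟨K, hK⟩ : ∃ K : ℝ, K = KK D (Fintype.card ι) := ⟨_, rfl⟩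
  have hD1 : (1 : ℝ) ≤ (D : ℝ) + 1 := by linarith [show (0 : ℝ) ≤ D by positivity]
  have hK1 : 1 ≤ K := by
    rw [hK, KK]
    exact one_le_mul_of_one_le_of_one_le (one_le_pow₀ hD1) (one_le_pow₀ (by norm_num))
  refine ⟨k, c / K ^ k, by positivity, ?_⟩
  intro H hH hA1 hA2 P Q hP hQ hPD hQD hPH hQH
  rw [← hK] at hA1 hA2
  have hH0 : 0 ≤ H := by linarith
  -- the two polynomials
  let u : Fin 2 → Polynomial (MvPolynomial (Option ι) ℤ) := ![Polynomial.C (MvPolynomial.X none), Polynomial.X]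
  let t : Option ι → ℕ := fun o => o.elim 0 s
  let v : Option ι → Polynomial (MvPolynomial (Option ι) ℤ) := fun j =>
    Polynomial.C (MvPolynomial.X j) + (t j : Polynomial (MvPolynomial (Option ι) ℤ)) *
      (Polynomial.C (MvPolynomial.X (some j₀)) ^ e * Polynomial.X)
  have ht : ∀ j, t j ≤ 1 := by
    intro j
    cases j with
    | none => exact Nat.zero_le _
    | some i => exact hs i
  have hu1 : ∀ j, u j ∈ pdF (Option ι) 1 := by
    intro j
    fin_cases j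
    · exact pdF_C none
    · exact pdF_X
  have hu2 : ∀ j, len ml (u j) ≤ 2 := by
    intro j
    fin_cases j
    · exact (ply_C none).trans one_le_two
    · exact ply_X.trans one_le_two
  have hv1 : ∀ j, v j ∈ pdF (Option ι) (e + 1) := by
    intro j
    refine add_mem (pdF_mono (Option ι) 1 (e + 1) (by omega) (pdF_C j)) ?_
    rw [← nsmul_eq_mul]
    refine nsmul_mem ?_ _
    have h1 := filt_pow (pdF (Option ι)) (pdF_one _) (pdF_mul _) (pdF_C (some j₀)) e
    rw [mul_one] at h1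
    exact pdF_mul _ _ _ _ _ h1 pdF_X
  have hv2 : ∀ j, len ml (v j) ≤ 2 := by
    intro j
    refine (isLen_ply.add _ _).trans ?_
    have h1 := ply_C (ι := Option ι) j
    have h0 : len (ml : MvPolynomial (Option ι) ℤ → ℝ)
        (Polynomial.C (MvPolynomial.X (some j₀)) ^ e * Polynomial.X) ≤ 1 := by
      refine (isLen_ply.mul _ _).trans ?_
      refine mul_le_one₀ ?_ (isLen_ply.nonneg _) ply_X
      have h3 : ∀ k : ℕ, len (ml : MvPolynomial (Option ι) ℤ → ℝ)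
          ((Polynomial.C (MvPolynomial.X (some j₀)) : Polynomial (MvPolynomial (Option ι) ℤ)) ^ k) ≤ 1 := by
        intro k
        induction k with
        | zero => rw [pow_zero]; exact isLen_ply.one
        | succ k ih =>
          rw [pow_succ]
          exact (isLen_ply.mul _ _).trans (mul_le_one₀ ih (isLen_ply.nonneg _) (ply_C _))
      exact h3 e
    have h2 : len (ml : MvPolynomial (Option ι) ℤ → ℝ)
        ((t j : Polynomial (MvPolynomial (Option ι) ℤ)) *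
          (Polynomial.C (MvPolynomial.X (some j₀)) ^ e * Polynomial.X)) ≤ 1 := by
      refine (isLen_ply.mul _ _).trans ?_
      have h3 := ply_int (ι := Option ι) (t j : ℤ)
      have h4 : |(((t j : ℕ) : ℤ) : ℝ)| ≤ 1 := by
        rw [Int.cast_natCast, Nat.abs_cast]
        exact_mod_cast ht j
      have h5 : len (ml : MvPolynomial (Option ι) ℤ → ℝ) (t j : Polynomial (MvPolynomial (Option ι) ℤ)) ≤ 1 := by
        have h6 : ((t j : ℤ) : Polynomial (MvPolynomial (Option ι) ℤ)) =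
            (t j : Polynomial (MvPolynomial (Option ι) ℤ)) := by push_cast; rfl
        rw [h6] at h3
        exact h3.trans h4
      exact mul_le_one₀ h5 (isLen_ply.nonneg _) h0
    linarith
  obtain ⟨hp1, hp2⟩ := side u hu1 hu2 D P hPD H hH0 hPH
  obtain ⟨hq1, hq2⟩ := sideG v (e + 1) hv1 hv2 D Q hQD H hH0 hQH
  replace hp1 := pdF_mono (Option ι) D (D * (e + 1)) (Nat.le_mul_of_pos_right _ (Nat.succ_pos _)) hp1
  set p := MvPolynomial.aeval u P with hp
  set q := MvPolynomial.aeval v Q with hq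
  have hKH : 1 ≤ K * H := one_le_mul_of_one_le_of_one_le hK1 hH
  have hp0 : p ≠ 0 := by
    intro h0
    apply hP
    let ψ : Polynomial (MvPolynomial (Option ι) ℤ) →+* MvPolynomial (Fin 2) ℤ :=
      Polynomial.eval₂RingHom (MvPolynomial.aeval (fun _ => (MvPolynomial.X 0 : MvPolynomial (Fin 2) ℤ)) :
        MvPolynomial (Option ι) ℤ →ₐ[ℤ] MvPolynomial (Fin 2) ℤ).toRingHom (MvPolynomial.X 1)
    have h1 := MvPolynomial.comp_aeval u ψ.toIntAlgHom
    have h2 : ψ p = MvPolynomial.aeval (fun i => ψ (u i)) P := congrArg (fun F => F P) h1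
    have h3 : (fun i => ψ (u i)) = MvPolynomial.X := by
      funext i
      fin_cases i
      · show ψ (Polynomial.C (MvPolynomial.X none)) = _
        simp [ψ]
      · show ψ Polynomial.X = _
        simp [ψ]
    rw [h3, MvPolynomial.aeval_X_left_apply, h0, map_zero] at h2
    exact h2.symm
  have hevu : ∀ α : ℂ, (fun j => ((u j).map (evC β)).eval α) = ![(η : ℂ), α] := by
    intro α
    funext j
    fin_cases j
    · show ((Polynomial.C (MvPolynomial.X none)).map (evC β)).eval α = _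
      rw [Polynomial.map_C, Polynomial.eval_C, evC_apply, MvPolynomial.aeval_X]
      rfl
    · show ((Polynomial.X : Polynomial (MvPolynomial (Option ι) ℤ)).map (evC β)).eval α = _
      rw [Polynomial.map_X, Polynomial.eval_X]
      rfl
  have hevv : ∀ α : ℂ, (fun j => ((v j).map (evC β)).eval α) =
      (fun o : Option ι => o.elim (η : ℂ) (fun j => (θ j : ℂ) + (s j : ℂ) * (θ j₀ : ℂ) ^ e * α)) := by
    intro α
    funext j
    show ((Polynomial.C (MvPolynomial.X j) + (t j : Polynomial (MvPolynomial (Option ι) ℤ)) *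
      (Polynomial.C (MvPolynomial.X (some j₀)) ^ e * Polynomial.X)).map (evC β)).eval α = _
    rw [Polynomial.map_add, Polynomial.eval_add, Polynomial.map_C, Polynomial.eval_C, evC_apply, MvPolynomial.aeval_X,
      Polynomial.map_mul, Polynomial.eval_mul, Polynomial.map_mul, Polynomial.eval_mul, Polynomial.map_pow,
      Polynomial.eval_pow, Polynomial.map_C, Polynomial.eval_C, evC_apply, MvPolynomial.aeval_X, Polynomial.map_X,
      Polynomial.eval_X, Polynomial.map_natCast, Polynomial.eval_natCast]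
    cases j with
    | none => simp [t, hβdef]
    | some i => simp [t, hβdef, mul_assoc]
  have hη : Transcendental ℚ η := hAI.transcendental none
  have hcop : ∀ α : ℂ, (p.map (evC β)).eval α = 0 → (q.map (evC β)).eval α ≠ 0 := by
    intro α hα
    rw [hp, eval_side, hevu α] at hα
    rw [hq, eval_side, hevv α]
    have h1 := mem_of_rel hη α P hP hα
    exact aeval_int_ne (shift_indep_G η θ s j₀ hj₀ e hAI α h1) Q hQ
  have hKle : ∀ n : ℕ, n ≤ Fintype.card ι + 2 → (((D : ℝ) + 1) ^ n * 2 ^ D) * H ≤ K * H := by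
    intro n hn
    rw [hK, KK]
    refine mul_le_mul_of_nonneg_right ?_ hH0
    exact mul_le_mul_of_nonneg_right (pow_le_pow_right₀ hD1 hn) (by positivity)
  have key := hm (K * H) hKH hA1 hA2 p q hp0 hp1 hq1
    (fun i => (hp2 i).trans (hKle _ (by rw [Fintype.card_fin]; omega)))
    (fun i => (hq2 i).trans (hKle _ (by rw [Fintype.card_option]; omega))) hcop
  have e1 : ‖(p.map (evC β)).eval (y : ℂ)‖ = |MvPolynomial.aeval ![η, y] P| := by
    rw [hp, eval_side, hevu, ← norm_aeval_ofReal]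
    congr 2
    congr 1
    funext j
    fin_cases j <;> rfl
  have e2 : ‖(q.map (evC β)).eval (y : ℂ)‖ =
      |MvPolynomial.aeval (fun o : Option ι => o.elim η (fun j => θ j + s j * θ j₀ ^ e * y)) Q| := by
    rw [hq, eval_side, hevv, ← norm_aeval_ofReal]
    congr 2
    congr 1
    funext j
    cases j with
    | none => rfl
    | some i => simp
  rw [e1, e2] at key
  rw [div_le_iff₀ (by positivity)]
  calc c ≤ (K * H) ^ k * _ := key
    _ = _ := by rw [mul_pow]; ring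


/-- one step of the elimination -/
theorem MeasSeq.stepG {ι : Type} [Fintype ι] {η : ℝ} {θ : ι → ℝ} {h : ℕ → ℝ}
    (hβ : MeasSeq (fun o : Option ι => o.elim η θ) h) (h1 : ∀ N, 1 ≤ h N) (s : ι → ℕ) (hs : ∀ j, s j ≤ 1)
    (j₀ : ι) (hj₀ : s j₀ = 0) (e : ℕ) (y : ℝ) (D₀ : ℕ) (P : ℕ → MvPolynomial (Fin 2) ℤ) (hP0 : ∀ N, P N ≠ 0) (hPD : ∀ N, (P N).totalDegree ≤ D₀)
    (hPh : ∀ N, ∀ u, |((MvPolynomial.coeff u (P N) : ℤ) : ℝ)| ≤ h N)
    (hsm : Small (fun N => MvPolynomial.aeval ![η, y] (P N)) h) :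
    MeasSeq (fun o : Option ι => o.elim η (fun j => θ j + s j * θ j₀ ^ e * y)) h := by
  intro D' E
  have hAI := hβ.indep h1
  obtain ⟨D, hD⟩ : ∃ D : ℕ, D = D₀ + D' + 1 := ⟨_, rfl⟩
  obtain ⟨E', hE'⟩ : ∃ E' : ℕ, E' = E + 1 := ⟨_, rfl⟩
  obtain ⟨K, hK⟩ : ∃ K : ℝ, K = KK D (Fintype.card ι) := ⟨_, rfl⟩
  have hD1 : (1 : ℝ) ≤ (D : ℝ) + 1 := by linarith [show (0 : ℝ) ≤ D by positivity]
  have hK1 : 1 ≤ K := by
    rw [hK, KK]
    exact one_le_mul_of_one_le_of_one_le (one_le_pow₀ hD1) (one_le_pow₀ (by norm_num))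
  obtain ⟨K', hK'⟩ : ∃ K' : ℕ, K ≤ K' := exists_nat_ge _
  have hK'1 : (1 : ℝ) ≤ K' := hK1.trans hK'
  have hE'1 : (1 : ℝ) ≤ (E' : ℝ) := by rw [hE']; push_cast; linarith [show (0 : ℝ) ≤ E by positivity]
  -- the scale
  let H : ℕ → ℝ := fun N => E' * h N ^ E'
  have hhH : ∀ N, h N ≤ H N := by
    intro N
    have hh := h1 N
    calc h N = h N ^ 1 := (pow_one _).symm
      _ ≤ h N ^ E' := pow_le_pow_right₀ hh (by omega)
      _ ≤ E' * h N ^ E' := le_mul_of_one_le_left (by positivity) hE'1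
  have hH1 : ∀ N, 1 ≤ H N := fun N => (h1 N).trans (hhH N)
  obtain ⟨E1, hE1⟩ : ∃ E1 : ℕ, E1 = K' * E' := ⟨_, rfl⟩
  have hK'n : 1 ≤ K' := by exact_mod_cast hK'1
  have hE'n : 1 ≤ E' := by omega
  have hg1 : ∀ N, K * H N ≤ E1 * h N ^ E1 := by
    intro N
    have hh := h1 N
    have e1 : h N ^ E' ≤ h N ^ E1 := pow_le_pow_right₀ hh (by rw [hE1]; exact Nat.le_mul_of_pos_left _ hK'n)
    calc K * H N = K * E' * h N ^ E' := by ring
      _ ≤ K' * E' * h N ^ E1 := by gcongr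
      _ = E1 * h N ^ E1 := by rw [hE1]; push_cast; ring
  have hg1' : ∀ N, h N ≤ K * H N := fun N => (hhH N).trans (le_mul_of_one_le_left (by linarith [hH1 N]) hK1)
  obtain ⟨k1, c1, hc1, hA1⟩ := hβ.at h1 (D * (e + 1)) E1 (fun N => K * H N) hg1' hg1
  obtain ⟨DD, hDD⟩ : ∃ DD : ℕ, DD = D * (e + 1) := ⟨_, rfl⟩
  have hDD1 : 1 ≤ DD := by
    rw [hDD]
    exact Nat.mul_pos (by omega) (Nat.succ_pos _)
  obtain ⟨E2, hE2⟩ : ∃ E2 : ℕ, E2 = (2 * DD).factorial * E1 ^ (2 * DD) + E1 * (2 * DD) := ⟨_, rfl⟩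
  have hg2 : ∀ N, (2 * DD).factorial * (K * H N) ^ (2 * DD) ≤ E2 * h N ^ E2 := by
    intro N
    have hh := h1 N
    have hHN := hH1 N
    calc ((2 * DD).factorial : ℝ) * (K * H N) ^ (2 * DD) ≤ (2 * DD).factorial * (E1 * h N ^ E1) ^ (2 * DD) :=
          mul_le_mul_of_nonneg_left (pow_le_pow_left₀ (by positivity) (hg1 N) _) (by positivity)
      _ = ((2 * DD).factorial * E1 ^ (2 * DD)) * h N ^ (E1 * (2 * DD)) := by rw [mul_pow, ← pow_mul]; ring
      _ ≤ E2 * h N ^ E2 := by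
          have e1 : h N ^ (E1 * (2 * DD)) ≤ h N ^ E2 := pow_le_pow_right₀ hh (by omega)
          have e2 : ((2 * DD).factorial : ℝ) * E1 ^ (2 * DD) ≤ E2 := by
            rw [hE2]; push_cast
            have : (0 : ℝ) ≤ E1 * (2 * DD) := by positivity
            linarith
          gcongr
  have hg2' : ∀ N, h N ≤ (2 * DD).factorial * (K * H N) ^ (2 * DD) := by
    intro N
    have hKH : 1 ≤ K * H N := one_le_mul_of_one_le_of_one_le hK1 (hH1 N)
    have hfac : (1 : ℝ) ≤ (2 * DD).factorial := by exact_mod_cast Nat.factorial_pos _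
    calc h N ≤ K * H N := hg1' N
      _ = (K * H N) ^ 1 := (pow_one _).symm
      _ ≤ (K * H N) ^ (2 * DD) := pow_le_pow_right₀ hKH (by omega)
      _ ≤ _ := le_mul_of_one_le_left (by positivity) hfac
  obtain ⟨k2, c2, hc2, hA2⟩ := hβ.at h1 ((2 * DD) * DD) E2 (fun N => (2 * DD).factorial * (K * H N) ^ (2 * DD)) hg2' hg2
  obtain ⟨κ, c, hc, hm⟩ := names_atG η θ s hs j₀ hj₀ e hAI y D k1 k2 c1 c2 hc1 hc2
  have hEκ : (0 : ℝ) < (E' : ℝ) ^ κ := by positivity
  have hsm' := hsm (E' * κ) (c / (E' : ℝ) ^ κ) (by positivity)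
  refine ⟨E' * κ, c / (E' : ℝ) ^ κ, by positivity, ?_⟩
  filter_upwards [hA1, hA2, hsm'] with N hN1 hN2 hN3 Q hQ hQD hQc
  have hh := h1 N
  have hQH : ∀ u, |((MvPolynomial.coeff u Q : ℤ) : ℝ)| ≤ H N := fun u => (hQc u).trans (by
    show (E : ℝ) * h N ^ E ≤ E' * h N ^ E'
    have e1 : h N ^ E ≤ h N ^ E' := pow_le_pow_right₀ hh (by omega)
    have e2 : (E : ℝ) ≤ E' := by rw [hE']; push_cast; linarith
    gcongr)
  rw [hK] at hN1 hN2
  rw [hDD] at hN2
  have h2 := hm (H N) (hH1 N) hN1 hN2 (P N) Q (hP0 N) hQ ((hPD N).trans (by omega)) (hQD.trans (by omega))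
    (fun u => (hPh N u).trans (hhH N)) hQH
  have e3 : H N ^ κ = (E' : ℝ) ^ κ * h N ^ (E' * κ) := by
    show ((E' : ℝ) * h N ^ E') ^ κ = _
    rw [mul_pow, ← pow_mul]
  rw [e3] at h2
  rcases le_total |MvPolynomial.aeval ![η, y] (P N)|
    |MvPolynomial.aeval (fun o : Option ι => o.elim η (fun j => θ j + s j * θ j₀ ^ e * y)) Q| with h4 | h4
  · rw [max_eq_right h4] at h2
    rw [div_le_iff₀ hEκ]
    linarith
  · rw [max_eq_left h4] at h2
    rw [lt_div_iff₀ hEκ] at hN3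
    exfalso
    linarith


end Pool.Agent.Helper116_MU
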